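import Mathlib
import Pool.Agent.T6.H98.WO.Block
import Pool.Agent.T6.H98.WO.Std
import Pool.Agent.TH167.SH.Conv
import Pool.Agent.TH167.SH.Defs
import Pool.Agent.TH167.SH.Fam

set_option autoImplicit false

/-!
# The base curves of a linear system which are not `(-1)`-curves

Let `X` be the blow-up of the complex projective plane at `s ≥ 4` very general points, let `|D|` be a
nonempty linear system, `D = d H - ∑ m_i E_i`, and let `C = e H - ∑ u_i E_i` be an irreducible curve
with `D C < 0` which is not a `(-1)`-curve. By the conjecture there is no such curve. Let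
`C ^ 2 = -k < 0`. Then

* `C` does not meet the `(-1)`-curves `E` with `D E < -D C`; in particular it does not meet the
  `(-1)`-curves `E` with `D E < 0`, and `u_i = 0` if `m_i < -D C`;
* for every real root `a` with `C a ≠ 0` we have `(C a) ^ 2 ≥ k`, and `(C a) ^ 2 < 2 k` or
  `(C a) (D a) ≥ -2 D C`; so `k ≤ (C a) ^ 2 < 2 k` if `D a = 0`;
* if `a`, `b` are roots orthogonal to `D` and `a b = 0`, then `C a = 0` or `C b = 0`; if `a b = 1` then
  one of the numbers `C a`, `C b`, `C (a + b)` is zero;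
* there is a point `P_i0` such that `u_i = u_j` whenever `m_i = m_j`, for all points but this one; if
  `n` of the `m_j` are equal to `m_i0`, the common value of the other `u_j` for these `j` is `u_i0`,
  or it differs from `u_i0` by a number `δ` with `k ≤ δ ^ 2 < n k / (n - 1)`;
* if `D` is standard (its degree is at least the sum of any three of its multiplicities), then there
  is a curve `C1` in the Weyl group orbit of `C`, again on `X`, which is standard, has its
  multiplicities in the order of those of `D`, and `D C1 ≤ D C`.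

The proof: the reflections of `C` are irreducible curves on `X`; certain sums of `C`, its
reflections and `(-1)`-curves are nef, and the intersection number of a nef class and an effective
class is nonnegative.
-/

namespace Pool.Agent.Results.MP_6e81d8_ag.BaseCurves

open MvPolynomial Pool.Agent.TH167 Pool.Agent.TH167.SHDefs Pool.Agent.T6.H98.WO

/-- The class `d H - ∑ w l E_l`. -/
def cl {s : ℕ} (d : ℕ) (w : Fin s → ℕ) : ℤ × (Fin s → ℤ) := (d, fun l => w l)

/-- The degree is at least the sum of any three multiplicities. -/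
def Standard {s : ℕ} (d : ℕ) (w : Fin s → ℕ) : Prop :=
  ∀ i j l : Fin s, i ≠ j → i ≠ l → j ≠ l → w i + w j + w l ≤ d

theorem result (s : ℕ) (hs : 4 ≤ s) :
    ∃ Z : ℕ → MvPolynomial (Fin s × Fin 2) ℂ, (∀ n, Z n ≠ 0) ∧
      ∀ P : Fin s → Fin 2 → ℂ,
        (∀ n, MvPolynomial.eval (fun ij : Fin s × Fin 2 => P ij.1 ij.2) (Z n) ≠ 0) →
        ∀ (d : ℕ) (m : Fin s → ℕ), sys P d m ≠ ⊥ →
        ∀ (e : ℕ) (u : Fin s → ℕ) (C : MvPolynomial (Fin 3) ℂ), Curve P C e u →
          ¬ MinusOne P C e u → inter d m e u < 0 →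
          ∃ k : ℤ, 0 < k ∧ inter e u e u = -k ∧
          -- (1) the `(-1)`-curves
          (∀ i, u i = 0 ∨ -inter d m e u ≤ m i) ∧
          (∀ (e' : ℕ) (u' : Fin s → ℕ) (E : MvPolynomial (Fin 3) ℂ), MinusOne P E e' u' →
            inter e u e' u' = 0 ∨ -inter d m e u ≤ inter d m e' u') ∧
          -- (2) the real roots
          (∀ a, Root a → dot (cl e u) a ≠ 0 → k ≤ dot (cl e u) a ^ 2 ∧
            (dot (cl e u) a ^ 2 < 2 * k ∨
              -(2 * inter d m e u) ≤ dot (cl e u) a * dot (cl d m) a)) ∧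
          -- (3) the roots orthogonal to `D`
          (∀ a b, Root a → Root b → dot (cl d m) a = 0 → dot (cl d m) b = 0 → dot a b = 0 →
            dot (cl e u) a = 0 ∨ dot (cl e u) b = 0) ∧
          (∀ a b, Root a → Root b → dot (cl d m) a = 0 → dot (cl d m) b = 0 → dot a b = 1 →
            dot (cl e u) a = 0 ∨ dot (cl e u) b = 0 ∨ dot (cl e u) a + dot (cl e u) b = 0) ∧
          -- (4) the points at which `D` has the same multiplicity
          (∃ i0, (∀ i j, i ≠ i0 → j ≠ i0 → m i = m j → u i = u j) ∧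
            ∀ i, m i = m i0 → u i ≠ u i0 → k ≤ ((u i : ℤ) - u i0) ^ 2 ∧
              (((Finset.univ.filter fun j => m j = m i0).card : ℤ) - 1) * ((u i : ℤ) - u i0) ^ 2 <
                (Finset.univ.filter fun j => m j = m i0).card * k) ∧
          -- (5) standard systems
          (Standard d m → ∃ (e1 : ℕ) (u1 : Fin s → ℕ) (C1 : MvPolynomial (Fin 3) ℂ),
            Curve P C1 e1 u1 ∧ Conj (cl e u) (cl e1 u1) ∧ Standard e1 u1 ∧
            (∀ i j, m i < m j → u1 i ≤ u1 j) ∧ inter d m e1 u1 ≤ inter d m e u) := by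
  obtain ⟨r, rfl⟩ : ∃ r, s = r + 4 := ⟨s - 4, by omega⟩
  obtain ⟨Z, hZ, h⟩ := SH.exists_fam (Fin (r + 4) × Fin 2)
  refine ⟨Z, hZ, fun P hP0 d m hne0 e u C hC hne hneg => ?_⟩
  have hP := (h _).1 hP0
  have hinj := SH.inj_of_alg hP
  obtain ⟨h1, h2, h3⟩ := SH.curve_iff.1 hC
  have hI : R355.NegOrb.Irr P e u := ⟨⟨C, h1, h2, h3⟩, fun h0 =>
    hne ⟨hC, by rw [SH.inter_eq, h0.1], by rw [SH.interK_eq, h0.2]⟩⟩
  have hO : Orb P (cl e u) := ⟨e, u, rfl, hI⟩
  have hD : Eff P d m := by
    obtain ⟨F, hF, hF0⟩ := Submodule.exists_mem_ne_zero_of_ne_bot hne0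
    rw [SH.sys_eq, SH.mem_VS] at hF
    exact ⟨F, hF0, hF.1, hF.2⟩
  have hdot : ∀ (e : ℕ) (u : Fin (r + 4) → ℕ) (e' : ℕ) (u' : Fin (r + 4) → ℕ),
      dot (cl e u) (cl e' u') = inter e u e' u' := fun _ _ _ _ => rfl
  have hcomm : dot (cl e u) (cl d m) = inter d m e u := by rw [dot_comm, hdot]
  have hneg' : dot (cl e u) (cl d m) < 0 := by rw [hcomm]; exact hneg
  obtain ⟨k, hk⟩ : ∃ k : ℤ, k = - dot (cl e u) (cl e u) := ⟨_, rfl⟩
  have hk0 : 0 < k := by
    have := fix_neg hinj hD hO.cur hneg'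
    change dot (cl e u) (cl e u) < 0 at this
    omega
  have hrt : ∀ a : ℤ × (Fin (r + 4) → ℤ), dot (cl d m) a = 0 → dot a (cl d m) = 0 := by
    intro a ha
    rw [dot_comm]
    exact ha
  refine ⟨k, hk0, by rw [← hdot, hk, neg_neg], fun i => ?_, fun e' u' E hE => ?_, fun a ha h0 => ?_,
    fun a b ha hb haD hbD hab => fix_orth hP hD hO hneg' ha (hrt a haD) hb (hrt b hbD) hab,
    fun a b ha hb haD hbD hab => fix_tri hP hD hO hneg' ha (hrt a haD) hb (hrt b hbD) hab, ?_,
    fun hst => ?_⟩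
  · by_cases h0 : u i = 0
    · exact Or.inl h0
    · right
      have g := fix_pt hP hD hO (i := i) (by
        show (u i : ℤ) ≠ 0
        exact_mod_cast h0)
      change 0 ≤ dot (cl e u) (cl d m) + m i at g
      rw [hcomm] at g
      linarith
  · by_cases h0 : inter e u e' u' = 0
    · exact Or.inl h0
    · right
      obtain ⟨i, hi⟩ := conj_of_exc hP (SH.minusOne_iff.1 hE)
      obtain ⟨-, g⟩ := gap_conj hP hO hi
      have g1 : - dot (cl e u) (cl e u) ≤ dot (cl e u) (cl e' u') := g h0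
      obtain ⟨c1, c2, c3⟩ := SH.curve_iff.1 hE.curve
      have hEc : Cur P (cl e' u') := ⟨e', u', E, rfl, c1, c2, c3⟩
      have hEs : dot (cl e' u') (cl e' u') = -1 := by rw [hdot, hE.self]
      have g2 := fix_two hinj hD hO.cur hEc g1 (by rw [hEs]; omega)
      change 0 ≤ dot (cl e u) (cl d m) + dot (cl e' u') (cl d m) at g2
      rw [hcomm, dot_comm (cl e' u'), hdot] at g2
      linarith
  · refine ⟨by rw [hk]; exact gap_root hP hO ha h0, ?_⟩
    by_cases h4 : dot (cl e u) a ^ 2 < 2 * k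
    · exact Or.inl h4
    · right
      push Not at h4
      have g := fix_root_gen hP hD hO ha (by rw [← hk]; exact h4)
      change -(2 * dot (cl e u) (cl d m)) ≤ dot (cl e u) a * dot a (cl d m) at g
      rw [hcomm, dot_comm a] at g
      exact g
  · obtain ⟨i0, g1, g2⟩ := blocks (by omega) hP hD hO hneg'
    refine ⟨i0, fun i j hi hj hij => ?_, fun i hi hne1 => ?_⟩
    · have g3 : (u i : ℤ) = u j := g1 i j hi hj hij
      exact_mod_cast g3
    · have g3 := g2 i hi (by
        show (u i : ℤ) ≠ u i0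
        exact_mod_cast hne1)
      rw [← hk] at g3
      exact g3
  · obtain ⟨e1, u1, g1, g2, g3, g4, g5⟩ := std_mono hP (d := d) (m := m) hst hI
    obtain ⟨C1, c1, c2, c3⟩ := g2.ex
    refine ⟨e1, u1, C1, SH.curve_iff.2 ⟨c1, c2, c3⟩, g1, g3, g4, ?_⟩
    change dot (cl e1 u1) (cl d m) ≤ dot (cl e u) (cl d m) at g5
    rw [hcomm, dot_comm, hdot] at g5
    exact g5

end Pool.Agent.Results.MP_6e81d8_ag.BaseCurves
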