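import Mathlib
import Pool.Agent.T6.H9.SG.Main
import Pool.Agent.T6.H9.SG.Two
import Pool.Agent.T6.H9.SG.Irr
import Pool.Agent.TH167.SH.Fam
import Pool.Agent.TH167.SH.Conv

set_option autoImplicit false

/-!
# The SHGH conjecture for the classes of arithmetic genus at most four

A class `D = (d; m 1, …, m n)` on the blow-up of the complex projective plane at `n ≥ 4` general
points is standard if the sum of any three multiplicities is at most `d` (so all the classes of Q1 with
`n ≥ 4` are standard). The multiplicities may be zero.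

* Every standard class with `vdim (D) ≥ -1` and arithmetic genus at most `4` is nonspecial:
  `dim (D) = edim (D)`. These are infinitely many classes, for all numbers of points.
* Every standard class with `vdim (D) ≤ -1` and `K D ≤ 4` is empty: `dim (D) = edim (D) = -1`.
* Let the points be very general. If the class `D` contains an irreducible curve which is not a
  `(-1)`-curve, and `K D ≤ 4`, then `vdim (D) ≥ 0`; if moreover the arithmetic genus is at most `4`, then
  `dim (D) = vdim (D)`.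

By the finiteness theorem of `FixedGenusIsFinite` the first two statements are reduced to a search
among the classes of degree at most `74`; it is carried out by the kernel (`SG.search`). The minimal
classes which are found are `103` classes (with up to `631` unknowns after three of the points are
moved to the coordinate vertices), each is proved to be empty by an elimination modulo `1009` which
is carried out by the kernel (`SG.full`).
-/

namespace Pool.Agent.Results.MP_6e81d8_ag.SmallGenus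

open MvPolynomial Pool.Agent.TH167 Pool.Agent.TH167.SHDefs
open Pool.Agent.Results.MP_6e81d8_ag.FixedGenusIsFinite (Nonspecial Empty Standard Genus ThreePos
  nonspecial_iff empty_iff)

theorem genus_four (n : ℕ) (hn : 4 ≤ n) (d : ℕ) (w : Fin n → ℕ) (hs : Standard d w) (g : ℤ)
    (hg : g ≤ 4) (hgen : Genus g d w) (hv : -1 ≤ virtdim d w) : Nonspecial d w := by
  by_cases h3 : ThreePos w
  · refine (FixedGenusIsFinite.result.2.1 g).2 (fun n hn d w hs _ hgen hv => ?_) n hn d w hs h3
      hgen hv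
    refine Pool.Agent.T6.H9.SG.empty_small hn hs hv.le ?_
    unfold Genus at hgen
    have h1 := SH.two_chi d w
    rw [SH.virtdim_eq] at hv
    rw [SH.interK_eq, SH.inter_eq] at hgen
    rw [SH.interK_eq]
    omega
  · exact Pool.Agent.T6.H9.SG.two_nonspecial hn hs h3

theorem result :
    -- (1) arithmetic genus at most four
    (∀ n : ℕ, 4 ≤ n → ∀ (d : ℕ) (w : Fin n → ℕ), Standard d w → ∀ g : ℤ, g ≤ 4 → Genus g d w →
      -1 ≤ virtdim d w → Nonspecial d w) ∧
    -- (2) canonical degree at most four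
    (∀ n : ℕ, 4 ≤ n → ∀ (d : ℕ) (w : Fin n → ℕ), Standard d w → virtdim d w ≤ -1 →
      interK d w ≤ 4 → Empty d w) ∧
    -- (3) irreducible curves at very general points
    (∀ n : ℕ, 4 ≤ n → ∃ Z : ℕ → MvPolynomial (Fin n × Fin 2) ℂ, (∀ k, Z k ≠ 0) ∧
      ∀ P : Fin n → Fin 2 → ℂ,
        (∀ k, MvPolynomial.eval (fun ij : Fin n × Fin 2 => P ij.1 ij.2) (Z k) ≠ 0) →
        ∀ (d : ℕ) (w : Fin n → ℕ) (C : MvPolynomial (Fin 3) ℂ), Curve P C d w →
          ¬ MinusOne P C d w → interK d w ≤ 4 →
          0 ≤ virtdim d w ∧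
          ∀ g : ℤ, g ≤ 4 → Genus g d w → dimL P d w = virtdim d w) := by
  refine ⟨genus_four, fun n hn d w hs hv hK => Pool.Agent.T6.H9.SG.empty_small hn hs hv hK,
    fun n hn => ?_⟩
  obtain ⟨r, rfl⟩ : ∃ r, n = r + 4 := ⟨n - 4, by omega⟩
  obtain ⟨Z, hZ, h⟩ := SH.exists_fam (Fin (r + 4) × Fin 2)
  refine ⟨Z, hZ, fun P hP0 d w C hC hne hK => ?_⟩
  have hP := (h _).1 hP0
  obtain ⟨h1, h2, h3⟩ := SH.curve_iff.1 hC
  have hne' : ¬ (SH.ip d w d w = -1 ∧ SH.kk d w = 1) := fun h0 =>
    hne ⟨hC, by rw [SH.inter_eq, h0.1], by rw [SH.interK_eq, h0.2]⟩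
  obtain ⟨M, hM⟩ : ∃ M, ∀ j, w j ≤ M := ⟨∑ j, w j, fun j =>
    Finset.single_le_sum (fun _ _ => Nat.zero_le _) (Finset.mem_univ j)⟩
  have hw : SH.Few M d w := by
    left
    rw [Finset.filter_false_of_mem fun j _ => not_lt.2 (hM j)]
    simp
  obtain ⟨P1, d1, w1, C1, a1, a2, a3, a4, a5, a6, a7, a8⟩ :=
    Pool.Agent.T6.H9.SG.std_dim d P hP w hw C h1 h2 h3 hne'
  have hchi : SH.chi d1 w1 = SH.chi d w := by
    have e1 := SH.two_chi d1 w1
    have e2 := SH.two_chi d w
    omega
  have hv : virtdim d1 w1 = virtdim d w := by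
    rw [SH.virtdim_eq, SH.virtdim_eq, hchi]
  have hK1 : interK d1 w1 ≤ 4 := by
    rw [SH.interK_eq] at hK ⊢
    omega
  have hmem : C1 ∈ W609.CR.VS (fun j => W609.CR.aff (P1 j)) w1 d1 :=
    (SH.mem_VS _ _ _ _).2 ⟨a3, fun j => (a4 j).1⟩
  have hfin := W609.CR.vs_fin (fun j => W609.CR.aff (P1 j)) w1 d1
  have hpos : 0 < Module.finrank ℂ ↥(W609.CR.VS (fun j => W609.CR.aff (P1 j)) w1 d1) :=
    Module.finrank_pos_iff.2 ⟨⟨C1, hmem⟩, 0, fun h7 => a2.ne_zero (congrArg Subtype.val h7)⟩
  have hv0 : 0 ≤ virtdim d w := by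
    by_contra hcon
    have h4 := (empty_iff d1 w1).1 (Pool.Agent.T6.H9.SG.empty_small hn a7 (by omega) hK1) P1 a1
    rw [SH.sys_eq] at h4
    omega
  refine ⟨hv0, fun g hg hgen => ?_⟩
  have hgen1 : Genus g d1 w1 := by
    unfold Genus at hgen ⊢
    rw [SH.interK_eq, SH.inter_eq] at hgen ⊢
    omega
  have h5 := (nonspecial_iff d1 w1).1 (genus_four _ hn d1 w1 a7 g hg hgen1 (by omega)) P1 a1
  rw [SH.sys_eq] at h5
  rw [SH.virtdim_eq] at hv0
  rw [SH.dimL_eq, SH.virtdim_eq, ← a8, h5, hchi, max_eq_right (by omega)]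

end Pool.Agent.Results.MP_6e81d8_ag.SmallGenus
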